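import Pool.Agent.L0h19.QE.Stm

set_option autoImplicit false

/-!
# Project QE, module GSB: geometric sums
-/

namespace Pool.Agent.L0h19.QE

open Finset Filter Topology
open Pool.Agent.L0h87.LE (ee odds Inv MZ RHO HasOddDensity)

theorem ee_norm (t : ℝ) : ‖ee t‖ = 1 := by
  unfold ee
  rw [show (2 * Real.pi * Complex.I * t : ℂ) = ((2 * Real.pi * t : ℝ) : ℂ) * Complex.I by push_cast; ring]
  exact Complex.norm_exp_ofReal_mul_I _

theorem ee_mul_nat (x : ℝ) (i : ℕ) : ee (x * i) = ee x ^ i := by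
  unfold ee
  rw [← Complex.exp_nat_mul]
  congr 1
  push_cast
  ring

theorem norm_ee_sub_one (x : ℝ) : ‖ee x - 1‖ = 2 * |Real.sin (Real.pi * x)| := by
  have h1 := Complex.norm_exp_I_mul_ofReal_sub_one (2 * Real.pi * x)
  have h2 : ee x = Complex.exp (Complex.I * ((2 * Real.pi * x : ℝ) : ℂ)) := by
    unfold ee
    congr 1
    push_cast
    ring
  rw [h2, h1, Real.norm_eq_abs, abs_mul, abs_of_pos (by norm_num : (0 : ℝ) < 2)]
  congr 3
  ring

theorem sin_lower (x : ℝ) : 2 * |x - round x| ≤ |Real.sin (Real.pi * x)| := by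
  obtain ⟨y, hy⟩ : ∃ y : ℝ, y = x - round x := ⟨_, rfl⟩
  have h0 : |y| ≤ 1 / 2 := by
    rw [hy]
    exact abs_sub_round x
  have h1 : |Real.sin (Real.pi * x)| = |Real.sin (Real.pi * y)| := by
    have h2 : Real.pi * x = Real.pi * y + (round x : ℤ) * Real.pi := by
      rw [hy]
      ring
    rw [h2, Real.sin_add_int_mul_pi]
    rw [abs_mul, abs_zpow, abs_neg, abs_one, one_zpow, one_mul]
  rw [h1, ← hy]
  have h3 : |Real.sin (Real.pi * y)| = |Real.sin (Real.pi * |y|)| := by
    rcases abs_cases y with ⟨h, -⟩ | ⟨h, -⟩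
    · rw [h]
    · rw [h, mul_neg, Real.sin_neg, abs_neg]
  rw [h3]
  have hp := Real.pi_pos
  have h4 : 2 / Real.pi * (Real.pi * |y|) ≤ Real.sin (Real.pi * |y|) :=
    Real.mul_le_sin (by positivity) (by
      have := mul_le_mul_of_nonneg_left h0 hp.le
      linarith)
  have h5 : 2 / Real.pi * (Real.pi * |y|) = 2 * |y| := by
    field_simp
  rw [h5] at h4
  exact h4.trans (le_abs_self _)

theorem t_GSB : S_GSB := by
  intro x I
  refine ⟨?_, fun τ hτ h => ?_⟩
  · unfold gs
    refine (norm_sum_le _ _).trans ?_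
    simp [ee_norm]
  · have h1 : 2 * τ ≤ |Real.sin (Real.pi * x)| := by
      have := sin_lower x
      linarith
    have h2 : 4 * τ ≤ ‖ee x - 1‖ := by
      rw [norm_ee_sub_one]
      linarith
    have hne : ee x ≠ 1 := by
      intro h3
      rw [h3, sub_self, norm_zero] at h2
      linarith
    unfold gs
    simp only [ee_mul_nat]
    rw [geom_sum_eq hne, norm_div, div_le_div_iff₀ (by linarith) (by positivity)]
    have h4 : ‖ee x ^ I - 1‖ ≤ 2 := by
      refine (norm_sub_le _ _).trans ?_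
      rw [norm_pow, ee_norm, one_pow, norm_one]
      norm_num
    nlinarith [norm_nonneg (ee x ^ I - 1)]

end Pool.Agent.L0h19.QE
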