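import Pool.Agent.L0h87.LE.StmH

set_option autoImplicit false

/-!
# Project QE (helper19): heights of the 3x+1 map in quadratic equations, statements with proofs

A bounded function `f` on the odd integers of mean value zero (`MZ f`) which is nearly invariant (`Inv q f`) has
small quadratic exponential sums `∑ f(n) e(α n²)`, uniformly in `α` (`FU2`). The circle method gives the
independence of the heights in the solutions of diagonal quadratic equations in at least seven variables.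

All modules: import this file (it imports Mathlib and the LE definitions `ee`, `odds`, `Inv`, `MZ`, `RHO`).
`ee t = exp (2 π i t)`, `odds N` the odd `n` in `[1, N]`.
`Inv q f`: for `q ∣ b` and `M = 2^a` or `M = 3^b`, `s < M`: `∑_{i<I} |f(2 M i + 2 s + 1) - f(2·2^a i + 1)| ≤ ε I`
for `I ≥ I₀(ε)`.
-/

namespace Pool.Agent.L0h19.QE

open Finset Filter Topology
open Pool.Agent.L0h87.LE (ee odds Inv MZ RHO HasOddDensity)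

/-- the quadratic exponential sum over the odd integers up to `N` -/
noncomputable def S2 (f : ℕ → ℝ) (N : ℕ) (α : ℝ) : ℂ := ∑ n ∈ odds N, (f n : ℂ) * ee (α * (n : ℝ) ^ 2)

/-- uniformly small quadratic exponential sums -/
def FU2 (f : ℕ → ℝ) : Prop := ∀ ε : ℝ, 0 < ε → ∃ N₀ : ℕ, ∀ N : ℕ, N₀ ≤ N → ∀ α : ℝ, ‖S2 f N α‖ ≤ ε * N

/-- the sum over the block `i` of `M` odd integers -/
noncomputable def bl (α : ℝ) (M i : ℕ) : ℂ := ∑ s ∈ range M, ee (α * ((2 * M * i + 2 * s + 1 : ℕ) : ℝ) ^ 2)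

/-- the absolute value of the geometric sum -/
noncomputable def gs (x : ℝ) (I : ℕ) : ℝ := ‖∑ i ∈ range I, ee (x * i)‖

/-- the sum over the solutions of a diagonal quadratic equation in odd integers up to `N` -/
noncomputable def G2 {k : ℕ} (a : Fin k → ℤ) (N : ℕ) (n : ℤ) (w : Fin k → ℕ → ℝ) : ℝ :=
  ∑ m ∈ (Fintype.piFinset fun _ : Fin k => odds N).filter (fun m => ∑ i, a i * (m i : ℤ) ^ 2 = n), ∏ i, w i (m i)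

/-- weighted number of representations of `n` as a sum of four odd squares -/
noncomputable def rp (w : Fin 4 → ℕ → ℝ) (N n : ℕ) : ℝ :=
  ∑ m ∈ (Fintype.piFinset fun _ : Fin 4 => odds N).filter (fun m => ∑ i, m i ^ 2 = n), ∏ i, w i (m i)

/-! ### A. Exponential sums -/

/-- BLK (70 lines). Decomposition into blocks, `I = N / (2 M)` blocks of `M` odd integers. Each odd
`n ≤ 2 M I` is `2 M i + 2 s + 1` in one way (`i < I`, `s < M`); the remaining at most `M` odd `n ≤ N` contribute at most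
`C M`. The difference is at most `C M + ∑_{s<M} ∑_{i<I} |f(2 M i + 2 s + 1) - f(2·2^a i + 1)|`; use `Inv` for all `s < M`.
(Compare `Pool.Agent.L0h87.LE.S_near`, `DD_small` in `L0h87/LE/Bas.lean`, `Tra.lean`.) -/
def S_BLK : Prop := ∀ (q : ℕ) (f : ℕ → ℝ) (C : ℝ), (∀ n, |f n| ≤ C) → Inv q f → ∀ a b : ℕ, q ∣ b →
  ∀ M : ℕ, (M = 2 ^ a ∨ M = 3 ^ b) → ∀ ε : ℝ, 0 < ε → ∃ N₀ : ℕ, ∀ N : ℕ, N₀ ≤ N →
  ∀ φ : ℕ → ℂ, (∀ n, ‖φ n‖ ≤ 1) →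
    ‖∑ n ∈ odds N, (f n : ℂ) * φ n -
      ∑ i ∈ range (N / (2 * M)), (f (2 * 2 ^ a * i + 1) : ℂ) * ∑ s ∈ range M, φ (2 * M * i + 2 * s + 1)‖ ≤ ε * N

/-- GSB (40 lines). Trivial bound, and the geometric series with `|e(x) - 1| = 2 |sin (π x)| ≥ 4 |x - round x|`
(`Real.mul_le_sin` or `Real.two_div_pi_mul_le_sin`). -/
def S_GSB : Prop := ∀ (x : ℝ) (I : ℕ), gs x I ≤ I ∧ ∀ τ : ℝ, 0 < τ → τ ≤ |x - round x| → gs x I ≤ 1 / (2 * τ)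

/-- VDC (80 lines). Expand the square: `(2Mi+2s+1)² - (2Mi+2s'+1)² = 8 M i (s - s') + 4 (s - s') (s + s' + 1)`; the pairs with
`s = s'` give `M I`, the at most `2 M` pairs with `|s - s'| = h` give at most `gs (8 α M h) I` each. -/
def S_VDC : Prop := ∀ (α : ℝ) (M I : ℕ),
  ∑ i ∈ range I, ‖bl α M i‖ ^ 2 ≤ M * I + 2 * M * ∑ h ∈ Icc 1 (M - 1), gs (8 * α * M * h) I

/-- MINA (50 lines, from VDC, GSB). If all `gs (8 α M h) I ≤ (ε²/4) I`, `1 ≤ h < M`, then by Cauchy-Schwarz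
`(∑ ‖bl‖)² ≤ I (M I + 2 M · M (ε²/4) I) = (1/M + ε²/2) M² I² < ε² M² I²`, a contradiction. For an `h` with
`gs > (ε²/4) I` the bound GSB with `τ = 2 / (ε² I)` fails. -/
def S_MINA : Prop := S_VDC → S_GSB → ∀ ε : ℝ, 0 < ε → ∀ M I : ℕ, 2 / ε ^ 2 < M → 1 ≤ I → ∀ α : ℝ,
  ε * M * I < ∑ i ∈ range I, ‖bl α M i‖ →
  ∃ h ∈ Icc 1 (M - 1), |8 * α * M * h - round (8 * α * M * h)| ≤ 2 / (ε ^ 2 * I)

/-- The conclusion of MINB: either the block sums are small or `α` is very near a rational number of bounded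
denominator. -/
def MinB (ε : ℝ) : Prop := ∃ Q : ℕ, 1 ≤ Q ∧ ∀ c : ℝ, 0 < c → ∃ a I₀ : ℕ, ∀ I : ℕ, I₀ ≤ I → ∀ α : ℝ,
  ∑ i ∈ range I, ‖bl α (2 ^ a) i‖ ≤ ε * 2 ^ a * I ∨
    ∃ (q : ℕ) (p : ℤ), 1 ≤ q ∧ q ≤ Q ∧ |α - p / q| ≤ c / (2 ^ a * I)

/-- MINB (150 lines, from MINA, VDC, GSB). Let `M₁ = 2^{a₁} > 2/ε²`, `Q = 8 M₁²`. Given `c` let `M = 2^a`, `a ≥ a₁` large (see
the end). Suppose the sum over the blocks of length `M` is `> ε M I`. By the triangle inequality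
(`bl α M i` is the sum of `M / M₁` consecutive `bl α M₁ i'`) the sum over the `I₁ = I M / M₁` blocks of length `M₁` is
`> ε M₁ I₁`, so MINA gives `1 ≤ h₁ < M₁`; put `q = 8 M₁ h₁ ≤ Q`, `p = round (8 α M₁ h₁)`, `β = α - p/q`; then
`|β| ≤ 2 / (ε² I₁ q) ≤ 1 / (4 ε² I M h₁)`. Assume `|β| > c / (M I)`. For `1 ≤ h < M`:
`8 α M h = p (M/M₁) h / h₁ + 8 β M h` with `|8 β M h| ≤ 2 M / (ε² I)`, small for `I` large. If `h₁ ∣ p (M/M₁) h` then the distance to the next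
integer is `8 |β| M h ≥ 8 c h / I`, so `gs ≤ I / (16 c h)`; otherwise it is at least `1/h₁ - 8 |β| M h ≥ 1 / (2 M₁)` and `gs ≤ M₁`. By VDC
`∑_i ‖bl‖² ≤ M² I (1/M + 2 M₁/I + (1 + log M)/(8 c M)) ≤ ε² M² I` for `M` large and then `I` large, hence
`∑ ‖bl‖ ≤ ε M I` by Cauchy-Schwarz, a contradiction. (`∑_{h<M} 1/h ≤ 1 + log M`: `harmonic_le_one_add_log`; a
cruder bound such as `2 √M` is enough.) -/
def S_MINB : Prop := S_MINA → S_VDC → S_GSB → ∀ ε : ℝ, 0 < ε → MinB ε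

/-- The conclusion of MAJ. -/
def Maj (f : ℕ → ℝ) : Prop := ∀ (Q : ℕ) (ε : ℝ), 0 < ε → ∃ c : ℝ, 0 < c ∧ ∃ N₀ : ℕ, ∀ N : ℕ, N₀ ≤ N →
  ∀ (α : ℝ) (q : ℕ) (p : ℤ), 1 ≤ q → q ≤ Q → |α - p / q| * N ≤ c → ‖S2 f N α‖ ≤ ‖S2 f N (α - p / q)‖ + ε * N

/-- MAJ (150 lines, from BLK). `M = 2^a`, `b = 0`, `M ≥ 16 C Q/ε`. Put `β = α - p/q`,
`γ = (1/q) ∑_{t<q} e(p (2t+1)²/q)`, `|γ| ≤ 1`. In the block `i` (all members `≤ N`) `|e(β m²) - e(β (2Mi+1)²)| ≤ 2π |β| 4 M N ≤ 8 π M c`,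
and `∑_{s<M} e(p (2(Mi+s)+1)²/q) = γ M + O(2 q)` (the function `t ↦ e(p (2t+1)²/q)` has period `q`: full periods and a rest).
So `‖bl α M i - γ bl β M i‖ ≤ 2 Q + 16 π M² c`; multiply by `|f| ≤ C`, sum over `i < N/(2M)`, apply BLK to both sums. -/
def S_MAJ : Prop := S_BLK → ∀ (q₀ : ℕ) (f : ℕ → ℝ) (C : ℝ), (∀ n, |f n| ≤ C) → Inv q₀ f → Maj f

/-- INT (120 lines). Compare with `(1/2) ∫_0^N e(γ x²) dx`: the error is at most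
`1 + ∑_n (1/2) ∫_{n-1}^{n+1} |e(γ n²) - e(γ x²)| dx ≤ 1 + 20 |γ| N²`. The integral over `[0, δ N]` is at most `δ N`, and
over `[δ N, N]` integration by parts (`e(γ x²) = (e(γ x²))' / (4 π i γ x)`) gives at most `1/(|γ| δ N)`. -/
def S_INT : Prop := ∀ (γ : ℝ) (N : ℕ) (δ : ℝ), γ ≠ 0 → 1 ≤ N → 0 < δ → δ ≤ 1 →
  ‖∑ n ∈ odds N, ee (γ * (n : ℝ) ^ 2)‖ ≤ δ * N + 2 / (δ * |γ| * N) + 20 * |γ| * N ^ 2 + 20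

/-- BESQ (80 lines). `∑_l S2 f N (β l) = ∑_n f(n) ∑_l e(β_l n²)`, Cauchy-Schwarz over `n` (at most `N` terms), expand the
square. Compare `Pool.Agent.L0h41.LE.BES` (`L0h41/LE/BES.lean`). -/
def S_BESQ : Prop := ∀ (K N : ℕ) (β : ℕ → ℝ) (C R : ℝ) (f : ℕ → ℝ), 0 ≤ C → 0 ≤ R → (∀ n, |f n| ≤ C) →
  (∀ l < K, ∀ l' < K, l ≠ l' → ‖∑ n ∈ odds N, ee ((β l - β l') * (n : ℝ) ^ 2)‖ ≤ R) →
  ‖∑ l ∈ range K, S2 f N (β l)‖ ^ 2 ≤ C ^ 2 * N * (K * N + K ^ 2 * R)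

/-- The conclusion of TRA. -/
def Tra (q : ℕ) (f : ℕ → ℝ) (C : ℝ) : Prop := ∀ a b : ℕ, q ∣ b → (1 : ℝ) / 2 ≤ 3 ^ b / 2 ^ a → ∀ ε : ℝ, 0 < ε →
  ∃ c : ℝ, 0 < c ∧ ∃ N₀ : ℕ, ∀ N : ℕ, N₀ ≤ N → ∀ β : ℝ, |β| * N ≤ c →
    ‖S2 f N β - S2 f N (β * ((3 : ℝ) ^ b / 2 ^ a) ^ 2)‖ ≤ (ε + 4 * C * |(3 : ℝ) ^ b / 2 ^ a - 1|) * N

/-- TRA (150 lines, from BLK). `ρ = 3^b/2^a`, `β' = β ρ²`, `v_i = f(2·2^a i + 1)`. BLK with `M = 3^b`, `I = N/(2·3^b)`: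
`S2 f N β = 3^b ∑_{i<I} v_i e(β (2·3^b i)²) + small`, because within a block `|e(β m²) - e(β (2·3^b i)²)| ≤ 2π |β| (2·3^b)(2 N + 1)` is small. In
the same way `S2 f N β' = 2^a ∑_{i<I'} v_i e(β' (2·2^a i)²) + small`, `I' = N/(2·2^a)`, and the phases are equal. So
`‖S2 f N β' - ρ⁻¹ S2 f N β‖ ≤ ε N + 2^a C |I' - I|`, `2^a |I' - I| ≤ (N/2) |1 - ρ⁻¹| + 2^a`; and `|1 - ρ⁻¹| ≤ 2 |ρ - 1|`, `‖S2‖ ≤ C (N + 1)/2`. -/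
def S_TRA : Prop := S_BLK → ∀ (q : ℕ) (f : ℕ → ℝ) (C : ℝ), (∀ n, |f n| ≤ C) → Inv q f → Tra q f C

/-- MID (150 lines, from RHO, TRA, INT, BESQ). Take `K ≥ 8 C²/ε²`, `η` small, by RHO `ρ = 3^(q k)/2^a ≠ 1`, `|ρ - 1| ≤ η`, and
`ρ^l = 3^(q k l)/2^(a l)`, `l < K`, with `|ρ^l - 1|` small. TRA: `‖S2 f N β - S2 f N (β ρ^(2l))‖ ≤ (ε/2) N` for `l < K`, if `|β| N ≤ c`. So
`K ‖S2 f N β‖ ≤ ‖∑_l S2 f N (β ρ^(2l))‖ + K (ε/2) N`, and BESQ, INT with `γ = β (ρ^(2l) - ρ^(2l'))`,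
`d |β| ≤ |γ| ≤ 4 |β|`, `d > 0`: `R ≤ (δ + 2/(δ d K₁) + 80 c) N + 20`. (Compare `L0h87/LE/Mid.lean`.) -/
def S_MID : Prop := RHO → S_TRA → S_BLK → S_INT → S_BESQ → ∀ (q : ℕ) (f : ℕ → ℝ) (C : ℝ), 1 ≤ q → (∀ n, |f n| ≤ C) →
  Inv q f → ∀ ε : ℝ, 0 < ε → ∃ c K₁ : ℝ, 0 < c ∧ 0 < K₁ ∧ ∃ N₀ : ℕ, ∀ N : ℕ, N₀ ≤ N → ∀ β : ℝ,
    K₁ ≤ |β| * N ^ 2 → |β| * N ≤ c → ‖S2 f N β‖ ≤ ε * N

/-- SMQ (60 lines). Partial summation, `|e(β n²) - e(β (n+1)²)| ≤ 2π |β| (2n+1)`, `∑_{n<N} (2n+1) = N²`.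
Compare `Pool.Agent.L0h41.LE.SML`. -/
def S_SMQ : Prop := ∀ (f : ℕ → ℝ) (N : ℕ) (E β : ℝ), 0 ≤ E → (∀ y ≤ N, |∑ n ∈ odds y, f n| ≤ E) →
  ‖S2 f N β‖ ≤ E * (1 + 2 * Real.pi * |β| * N ^ 2)

/-- FUR (120 lines). `ε' = ε/4`. `c, K₁` from MID; `Q` from `MinB (ε'/(C+1))`; `c'` from MAJ; MINB with a constant
`≤ min c c' / 4` gives `a`, `I₀`. For `α`: first case: BLK with `M = 2^a`, `b = 0` bounds `‖S2 f N α‖`. Second case: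
`|α - p/q| N ≤ min c c'` (as `N ≤ 4·2^a I` for `I = N/(2·2^a) ≥ 1`), MAJ reduces to `β = α - p/q`; then MID, or SMQ with MZ
(as in `small` of `L0h87/LE/Fur.lean`). -/
def S_FUR : Prop := RHO → S_BLK → (∀ ε : ℝ, 0 < ε → MinB ε) → S_MAJ → S_TRA → S_INT → S_BESQ → S_MID → S_SMQ →
  ∀ (q : ℕ) (f : ℕ → ℝ) (C : ℝ), 1 ≤ q → (∀ n, |f n| ≤ C) → Inv q f → MZ f → FU2 f

open Classical in
/-- AVQ (150 lines): adapt `Pool.Agent.L0h4.LE.AVG` (`L0h4/LE/AVG.lean`), the same proof with `ee (α n²)` in place of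
`ee (α n)`. -/
def S_AVQ : Prop := ∀ (h : ℕ → ℕ∞) (δ : ℝ), FU2 (fun n => (if h n = ⊤ then 1 else 0) - (1 - δ)) →
  HasOddDensity (fun m => h m ≠ ⊤) δ →
  (∀ η : ℝ, 0 < η → HasOddDensity (fun m => ∃ k : ℕ, h m = k ∧
    |(k : ℝ) - 2 / Real.log (16 / 9) * Real.log m| ≤ η * Real.log m) δ) →
  ∀ Λ : ℝ, 2 / Real.log (16 / 9) < Λ → ∀ ε : ℝ, 0 < ε → ∃ N₀ : ℕ, ∀ N : ℕ, N₀ ≤ N → ∀ α : ℝ,
    ‖S2 (fun m => ((min (h m) (⌊Λ * Real.log N⌋₊ : ℕ∞)).toNat : ℝ) / Real.log N -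
      (δ * (2 / Real.log (16 / 9)) + (1 - δ) * Λ)) N α‖ ≤ ε * N

/-! ### B. Counting -/

/-- CNA (100 lines). `v₁, v₂ ≤ v₃` need not hold. `g = gcd v₂ v₃`, `d = gcd v₁ g`. Necessary: `g ∣ u₁ v₁`, i.e. `(g/d) ∣ u₁`, at most
`2 T d/g + 1` values of `u₁`; for each of them `u₂` lies in one class modulo `v₃/g`, at most `2 T g/v₃ + 1` values; `u₃` is
determined. -/
def S_CNA : Prop := ∀ T v₁ v₂ v₃ : ℕ, 1 ≤ v₁ → 1 ≤ v₂ → 1 ≤ v₃ →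
  (((Icc (-(T : ℤ)) T ×ˢ Icc (-(T : ℤ)) T ×ˢ Icc (-(T : ℤ)) T).filter
    (fun u : ℤ × ℤ × ℤ => u.1 * v₁ + u.2.1 * v₂ + u.2.2 * v₃ = 0)).card : ℝ) ≤
    (2 * T * (Nat.gcd v₁ (Nat.gcd v₂ v₃)) / (Nat.gcd v₂ v₃) + 1) * (2 * T * (Nat.gcd v₂ v₃) / v₃ + 1)

/-- CNB (80 lines). Expand: `4T²d/v₃ + 2Td/g + 2Tg/v₃ + 1`, `d ≤ g`. `∑_{v₁,v₂≤v} gcd(v₁,v₂,v) ≤ ∑_{e∣v} e (v/e)² = v σ(v)`,
`∑_{v≤T} σ(v) = ∑_{m≤T} m ⌊T/m⌋ ≤ T²`: first term `≤ 4T⁴`; second `≤ 2T·T³`; third: `g ≤ T`, the sum over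
`v₁` cancels `v₃`: `≤ 2T·T³`; fourth `≤ T³`. -/
def S_CNB : Prop := ∀ T : ℕ, 1 ≤ T →
  ∑ v₃ ∈ Icc 1 T, ∑ v₂ ∈ Icc 1 v₃, ∑ v₁ ∈ Icc 1 v₃,
    ((2 * T * (Nat.gcd v₁ (Nat.gcd v₂ v₃)) / (Nat.gcd v₂ v₃) + 1) * (2 * T * (Nat.gcd v₂ v₃) / v₃ + 1) : ℝ) ≤
    9 * (T : ℝ) ^ 4

/-- the pairs `(u, v)` of CNC -/
noncomputable def uv (T : ℕ) : Finset ((Fin 3 → ℤ) × (Fin 3 → ℤ)) :=
  ((Fintype.piFinset fun _ : Fin 3 => Icc (-(T : ℤ)) T) ×ˢ (Fintype.piFinset fun _ : Fin 3 => Icc (1 : ℤ) T)).filter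
    (fun p => ∑ i, p.1 i * p.2 i = 0)

/-- CNC (80 lines, from CNA, CNB). Some `v_j` is the largest; exchange the coordinates `j` and `2`: at most `3` times the
number of pairs with `v 0, v 1 ≤ v 2`. -/
def S_CNC : Prop := S_CNA → S_CNB → ∀ T : ℕ, 1 ≤ T → ((uv T).card : ℝ) ≤ 27 * (T : ℝ) ^ 4

/-- the pairs of triples with equal sums of squares -/
def eqs (N : ℕ) : Finset ((Fin 3 → ℕ) × (Fin 3 → ℕ)) :=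
  ((Fintype.piFinset fun _ : Fin 3 => odds N) ×ˢ (Fintype.piFinset fun _ : Fin 3 => odds N)).filter
    (fun p => ∑ i, (p.1 i : ℤ) ^ 2 = ∑ i, (p.2 i : ℤ) ^ 2)

/-- SIX (50 lines, from CNC). `T = 2 N`, injection `(x, y) ↦ (x - y, x + y)`. -/
def S_SIX : Prop := (∀ T : ℕ, 1 ≤ T → ((uv T).card : ℝ) ≤ 27 * (T : ℝ) ^ 4) →
  ∀ N : ℕ, ((eqs N).card : ℝ) ≤ 432 * (N : ℝ) ^ 4

/-- The conclusion of MOM: the sixth moment. -/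
def Mom : Prop := ∀ (w : ℕ → ℝ) (C : ℝ) (a : ℤ) (N Q : ℕ), 0 ≤ C → (∀ m, |w m| ≤ C) → a ≠ 0 →
  3 * |a| * (N : ℤ) ^ 2 < Q → (1 / (Q : ℝ)) * ∑ r ∈ range Q, ‖S2 w N (a * r / Q)‖ ^ 6 ≤ 432 * C ^ 6 * (N : ℝ) ^ 4

/-- MOM (100 lines). `‖S‖⁶ = ‖S³‖²`, expand; `(1/Q) ∑_r e(a (∑x² - ∑y²) r/Q)` is `1` if `Q ∣ a (∑x² - ∑y²)`, i.e. if the sums are
equal, and `0` otherwise. -/
def S_MOM : Prop := (∀ N : ℕ, ((eqs N).card : ℝ) ≤ 432 * (N : ℝ) ^ 4) → Mom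

/-- CIQ (150 lines, from MOM). Compare `L0h29/LE/CIR.lean`. `Q` larger than `3 |a_i| N²` and `∑ |a_i| N² + |n|`:
`G2 a N n w = (1/Q) ∑_{r<Q} ∏_i S2 (w i) N (a_i r/Q) e(-n r/Q)`. One factor `≤ E` (for `i₀`), six others by
`∏_{6} x_i ≤ ∑ x_i⁶` and MOM, the others trivially (`‖S2‖ ≤ C N`). -/
def S_CIQ : Prop := Mom → ∀ (k : ℕ), 7 ≤ k → ∀ (a : Fin k → ℤ), (∀ i, a i ≠ 0) → ∀ (N : ℕ) (n : ℤ) (C E : ℝ)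
  (w : Fin k → ℕ → ℝ) (i₀ : Fin k), 0 ≤ C → 0 ≤ E → (∀ i m, |w i m| ≤ C) → (∀ α : ℝ, ‖S2 (w i₀) N α‖ ≤ E) →
  |G2 a N n w| ≤ 2592 * E * C ^ (k - 1) * N ^ (k - 3)

/-- HYQ (80 lines). Replace the `u i` by the `v i` one after the other; adapt `L0h39/LE/HYB.lean`. -/
def S_HYQ : Prop := (∀ (k : ℕ), 7 ≤ k → ∀ (a : Fin k → ℤ), (∀ i, a i ≠ 0) → ∀ (N : ℕ) (n : ℤ) (C E : ℝ)
  (w : Fin k → ℕ → ℝ) (i₀ : Fin k), 0 ≤ C → 0 ≤ E → (∀ i m, |w i m| ≤ C) → (∀ α : ℝ, ‖S2 (w i₀) N α‖ ≤ E) →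
  |G2 a N n w| ≤ 2592 * E * C ^ (k - 1) * N ^ (k - 3)) →
  ∀ (k : ℕ), 7 ≤ k → ∀ (a : Fin k → ℤ), (∀ i, a i ≠ 0) → ∀ (N : ℕ) (n : ℤ) (C E : ℝ)
  (u v : Fin k → ℕ → ℝ), 0 ≤ C → 0 ≤ E → (∀ i m, |u i m| ≤ C) → (∀ i m, |v i m| ≤ C) →
  (∀ i (α : ℝ), ‖S2 (fun m => u i m - v i m) N α‖ ≤ E) →
  |G2 a N n u - G2 a N n v| ≤ k * (2592 * E * (2 * C) ^ (k - 1) * N ^ (k - 3))

/-- the coefficients `1, 1, 1, 1, -1, -1, -1, -1` -/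
def a8 : Fin 8 → ℤ := ![1, 1, 1, 1, -1, -1, -1, -1]

/-- RPQ (80 lines). Group by the common value of the two sums of four squares. -/
def S_RPQ : Prop := ∀ (N : ℕ) (u w : Fin 4 → ℕ → ℝ),
  G2 a8 N 0 ![u 0, u 1, u 2, u 3, w 0, w 1, w 2, w 3] = ∑ n ∈ range (4 * N ^ 2 + 1), rp u N n * rp w N n

/-- LOB (50 lines, from RPQ). Cauchy-Schwarz: `(∑_n rp 1)² = (#odds N)^8 ≥ (N/2)^8` and at most `4N²+1 ≤ 5N²` values `n`. -/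
def S_LOB : Prop := S_RPQ → ∀ N : ℕ, 1 ≤ N → (N : ℝ) ^ 6 / 1280 ≤ G2 a8 N 0 (fun _ _ => 1)

/-- BIQ (60 lines, from RPQ). Expand the square `(rp u - P rp 1)²`. -/
def S_BIQ : Prop := S_RPQ → ∀ (N : ℕ) (u : Fin 4 → ℕ → ℝ) (P E : ℝ),
  |G2 a8 N 0 ![u 0, u 1, u 2, u 3, u 0, u 1, u 2, u 3] - P ^ 2 * G2 a8 N 0 (fun _ _ => 1)| ≤ E →
  |G2 a8 N 0 ![u 0, u 1, u 2, u 3, 1, 1, 1, 1] - P * G2 a8 N 0 (fun _ _ => 1)| ≤ E →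
  ∑ n ∈ range (4 * N ^ 2 + 1), (rp u N n - P * rp (fun _ _ => 1) N n) ^ 2 ≤ (1 + 2 * |P|) * E

end Pool.Agent.L0h19.QE
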