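import Pool.Agent.L0h19.QE.Fin
import Pool.Agent.L0h2.QE.HYQ
import Pool.Agent.L0h24.QE.INT
import Pool.Agent.L0h25.QE.MINA
import Pool.Agent.L0h26.QE.FUR
import Pool.Agent.L0h28.QE.MINB
import Pool.Agent.L0h29.QE.AVQ
import Pool.Agent.L0h48.QE.BIQ
import Pool.Agent.L0h55.QE.CNB
import Pool.Agent.L0h19.QE.GSB
import Pool.Agent.L0h59.QE.CNA
import Pool.Agent.L0h61.QE.TRA
import Pool.Agent.L0h65.QE.MID
import Pool.Agent.L0h66.QE.CIQ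
import Pool.Agent.L0h81.QE.RPQ
import Pool.Agent.L0h83.QE.LOB
import Pool.Agent.L0h83.QE.SMQ
import Pool.Agent.L0h85.QE.MAJ
import Pool.Agent.L0h90.QE.CNC
import Pool.Agent.L0h91.QE.BESQ
import Pool.Agent.L0h91.QE.VDC
import Pool.Agent.L0h92.QE.MOM
import Pool.Agent.L0h98.QE.BLK
import Pool.Agent.L0h98.QE.SIX

set_option autoImplicit false

/-!
# Project QE: all modules together
-/

namespace Pool.Agent.L0h19.QE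

open Finset Filter Topology
open Pool.Agent.L0h87.LE (ee odds Inv MZ RHO HasOddDensity)

theorem minB : ∀ ε : ℝ, 0 < ε → MinB ε :=
  Pool.Agent.L0h28.QE.t_MINB Pool.Agent.L0h25.QE.t_MINA Pool.Agent.L0h91.QE.t_VDC t_GSB

/-- uniformly small quadratic exponential sums -/
theorem fur2 (hRHO : RHO) : ∀ (q : ℕ) (f : ℕ → ℝ) (C : ℝ), 1 ≤ q → (∀ n, |f n| ≤ C) → Inv q f → MZ f → FU2 f :=
  Pool.Agent.L0h26.QE.t_FUR hRHO Pool.Agent.L0h98.QE.t_BLK minB Pool.Agent.L0h85.QE.t_MAJ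
    Pool.Agent.L0h61.QE.t_TRA Pool.Agent.L0h24.QE.t_INT Pool.Agent.L0h91.QE.t_BESQ Pool.Agent.L0h65.QE.t_MID
    Pool.Agent.L0h83.QE.t_SMQ

theorem avq : S_AVQ := Pool.Agent.L0h29.QE.t_AVQ

theorem mom : Mom := Pool.Agent.L0h92.QE.t_MOM (Pool.Agent.L0h98.QE.t_SIX
  (Pool.Agent.L0h90.QE.t_CNC Pool.Agent.L0h59.QE.t_CNA Pool.Agent.L0h55.QE.t_CNB))

/-- replacing the weights one after the other -/
theorem hyq : HyQ := Pool.Agent.L0h2.QE.t_HYQ (Pool.Agent.L0h66.QE.t_CIQ mom)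

theorem rpq : S_RPQ := Pool.Agent.L0h81.QE.t_RPQ

theorem lob : ∀ N : ℕ, 1 ≤ N → (N : ℝ) ^ 6 / 1280 ≤ G2 a8 N 0 (fun _ _ => 1) := Pool.Agent.L0h83.QE.t_LOB rpq

theorem biq : ∀ (N : ℕ) (u : Fin 4 → ℕ → ℝ) (P E : ℝ),
    |G2 a8 N 0 ![u 0, u 1, u 2, u 3, u 0, u 1, u 2, u 3] - P ^ 2 * G2 a8 N 0 (fun _ _ => 1)| ≤ E →
    |G2 a8 N 0 ![u 0, u 1, u 2, u 3, 1, 1, 1, 1] - P * G2 a8 N 0 (fun _ _ => 1)| ≤ E →
    ∑ n ∈ range (4 * N ^ 2 + 1), (rp u N n - P * rp (fun _ _ => 1) N n) ^ 2 ≤ (1 + 2 * |P|) * E :=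
  Pool.Agent.L0h48.QE.t_BIQ rpq

end Pool.Agent.L0h19.QE
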