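import Pool.Agent.L0h19.QE.Stm

set_option autoImplicit false

/-!
# Project QE, assembly
-/

namespace Pool.Agent.L0h19.QE

open Finset Filter Topology
open Pool.Agent.L0h87.LE (ee odds Inv MZ RHO HasOddDensity)

/-- the conclusion of HYQ -/
def HyQ : Prop := ∀ (k : ℕ), 7 ≤ k → ∀ (a : Fin k → ℤ), (∀ i, a i ≠ 0) → ∀ (N : ℕ) (n : ℤ) (C E : ℝ)
  (u v : Fin k → ℕ → ℝ), 0 ≤ C → 0 ≤ E → (∀ i m, |u i m| ≤ C) → (∀ i m, |v i m| ≤ C) →
  (∀ i (α : ℝ), ‖S2 (fun m => u i m - v i m) N α‖ ≤ E) →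
  |G2 a N n u - G2 a N n v| ≤ k * (2592 * E * (2 * C) ^ (k - 1) * N ^ (k - 3))

/-- small quadratic exponential sums of weights -/
def FN2 (W : ℕ → ℕ → ℝ) (V : ℝ) : Prop := ∀ ε : ℝ, 0 < ε → ∃ N₀ : ℕ, ∀ N : ℕ, N₀ ≤ N → ∀ α : ℝ,
  ‖S2 (fun m => W N m - V) N α‖ ≤ ε * N

/-- the number of the solutions -/
theorem G2_const {k : ℕ} (a : Fin k → ℤ) (N : ℕ) (n : ℤ) (V : Fin k → ℝ) :
    G2 a N n (fun i _ => V i) = (∏ i, V i) * G2 a N n (fun _ _ => 1) := by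
  unfold G2
  rw [Finset.mul_sum]
  refine Finset.sum_congr rfl fun m _ => ?_
  simp

theorem indep (hHYQ : HyQ) {k : ℕ} (hk : 7 ≤ k) {W : Fin k → ℕ → ℕ → ℝ} {V : Fin k → ℝ}
    (h : ∀ i, (∃ B : ℝ, ∀ N m, |W i N m| ≤ B) ∧ FN2 (W i) (V i)) :
    ∀ ε : ℝ, 0 < ε → ∃ N₀ : ℕ, ∀ N : ℕ, N₀ ≤ N → ∀ a : Fin k → ℤ, (∀ i, a i ≠ 0) → ∀ n : ℤ,
      |G2 a N n (fun i => W i N) - (∏ i, V i) * G2 a N n (fun _ _ => 1)| ≤ ε * N ^ (k - 2) := by
  intro ε hε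
  choose B hB using fun i => (h i).1
  obtain ⟨D, hD⟩ : ∃ D : ℝ, D = ∑ i, (|B i| + |V i|) := ⟨_, rfl⟩
  have hterm : ∀ i, |B i| + |V i| ≤ D := fun i => by
    rw [hD]
    exact Finset.single_le_sum (f := fun i => |B i| + |V i|) (fun j _ => by positivity) (mem_univ i)
  have hD0 : 0 ≤ D := by
    rw [hD]
    exact Finset.sum_nonneg fun i _ => by positivity
  have hu : ∀ i N m, |W i N m| ≤ D := fun i N m => by
    have := hterm i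
    have h1 := hB i N m
    have h2 := le_abs_self (B i)
    have h3 := abs_nonneg (V i)
    linarith
  have hv : ∀ i, |V i| ≤ D := fun i => by
    have := hterm i
    have h3 := abs_nonneg (B i)
    linarith
  obtain ⟨ε', hε'⟩ : ∃ ε' : ℝ, ε' = ε / (k * (2592 * (2 * D) ^ (k - 1)) + 1) := ⟨_, rfl⟩
  have hε0 : 0 < ε' := by rw [hε']; positivity
  choose N₀ hN₀ using fun i => (h i).2 ε' hε0
  refine ⟨Finset.univ.sup N₀, fun N hN a ha n => ?_⟩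
  have h1 := hHYQ k hk a ha N n D (ε' * N) (fun i m => W i N m) (fun i _ => V i) hD0 (by positivity)
    (fun i m => hu i N m) (fun i _ => hv i)
    (fun i α => hN₀ i N ((Finset.le_sup (mem_univ i)).trans hN) α)
  rw [G2_const] at h1
  refine h1.trans ?_
  have e2 : (N : ℝ) ^ (k - 2) = N ^ (k - 3) * N := by
    rw [← pow_succ]
    congr 1
    omega
  rw [e2]
  have hP : 0 ≤ (N : ℝ) ^ (k - 3) * N := by positivity
  have h3 : k * (2592 * (2 * D) ^ (k - 1)) * ε' ≤ ε := by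
    rw [hε']
    have h4 : 0 ≤ (k : ℝ) * (2592 * (2 * D) ^ (k - 1)) := by positivity
    have e3 : (k : ℝ) * (2592 * (2 * D) ^ (k - 1)) * (ε / (k * (2592 * (2 * D) ^ (k - 1)) + 1)) =
        ε * (k * (2592 * (2 * D) ^ (k - 1)) / (k * (2592 * (2 * D) ^ (k - 1)) + 1)) := by ring
    rw [e3]
    refine mul_le_of_le_one_right hε.le ?_
    rw [div_le_one (by positivity)]
    linarith
  calc (k : ℝ) * (2592 * (ε' * N) * (2 * D) ^ (k - 1) * N ^ (k - 3)) =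
        k * (2592 * (2 * D) ^ (k - 1)) * ε' * (N ^ (k - 3) * N) := by ring
    _ ≤ ε * (N ^ (k - 3) * N) := mul_le_mul_of_nonneg_right h3 hP

theorem eight_ne : ∀ i, a8 i ≠ 0 := by
  intro i
  fin_cases i <;> simp [a8]

/-- the mean over the solutions of the equation in eight variables -/
theorem mean_eight (hLOB : ∀ N : ℕ, 1 ≤ N → (N : ℝ) ^ 6 / 1280 ≤ G2 a8 N 0 (fun _ _ => 1))
    {W : Fin 8 → ℕ → ℕ → ℝ} {P : ℝ}
    (h : ∀ ε : ℝ, 0 < ε → ∃ N₀ : ℕ, ∀ N : ℕ, N₀ ≤ N → ∀ a : Fin 8 → ℤ, (∀ i, a i ≠ 0) → ∀ n : ℤ,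
      |G2 a N n (fun i => W i N) - P * G2 a N n (fun _ _ => 1)| ≤ ε * N ^ (8 - 2)) :
    Tendsto (fun N : ℕ => G2 a8 N 0 (fun i => W i N) / G2 a8 N 0 (fun _ _ => 1)) atTop (𝓝 P) := by
  rw [Metric.tendsto_atTop]
  intro ε hε
  obtain ⟨N₀, h0⟩ := h (ε / 2560) (by positivity)
  refine ⟨max N₀ 1, fun N hN => ?_⟩
  have hN1 : 1 ≤ N := (le_max_right _ _).trans hN
  have hN0 : (0 : ℝ) < N := by exact_mod_cast hN1
  have h1 := h0 N ((le_max_left _ _).trans hN) a8 eight_ne 0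
  have h2 := hLOB N hN1
  have hc : 0 < G2 a8 N 0 (fun _ _ => 1) := lt_of_lt_of_le (by positivity) h2
  rw [Real.dist_eq]
  have e : G2 a8 N 0 (fun i => W i N) / G2 a8 N 0 (fun _ _ => 1) - P =
      (G2 a8 N 0 (fun i => W i N) - P * G2 a8 N 0 (fun _ _ => 1)) / G2 a8 N 0 (fun _ _ => 1) := by
    field_simp
  rw [e, abs_div, abs_of_pos hc, div_lt_iff₀ hc]
  refine lt_of_le_of_lt h1 ?_
  have h3 : (8 - 2 : ℕ) = 6 := rfl
  rw [h3]
  have h4 : 0 < ε * (N : ℝ) ^ 6 := by positivity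
  calc ε / 2560 * (N : ℝ) ^ 6 = ε * ((N : ℝ) ^ 6 / 1280) / 2 := by ring
    _ < ε * ((N : ℝ) ^ 6 / 1280) := half_lt_self (by positivity)
    _ ≤ ε * G2 a8 N 0 (fun _ _ => 1) := mul_le_mul_of_nonneg_left h2 hε.le

/-- sums of four odd squares -/
theorem four (hBIQ : ∀ (N : ℕ) (u : Fin 4 → ℕ → ℝ) (P E : ℝ),
      |G2 a8 N 0 ![u 0, u 1, u 2, u 3, u 0, u 1, u 2, u 3] - P ^ 2 * G2 a8 N 0 (fun _ _ => 1)| ≤ E →
      |G2 a8 N 0 ![u 0, u 1, u 2, u 3, 1, 1, 1, 1] - P * G2 a8 N 0 (fun _ _ => 1)| ≤ E →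
      ∑ n ∈ range (4 * N ^ 2 + 1), (rp u N n - P * rp (fun _ _ => 1) N n) ^ 2 ≤ (1 + 2 * |P|) * E)
    {W : Fin 4 → ℕ → ℕ → ℝ} {P : ℝ}
    (h1 : ∀ ε : ℝ, 0 < ε → ∃ N₀ : ℕ, ∀ N : ℕ, N₀ ≤ N →
      |G2 a8 N 0 ![W 0 N, W 1 N, W 2 N, W 3 N, W 0 N, W 1 N, W 2 N, W 3 N] -
        P ^ 2 * G2 a8 N 0 (fun _ _ => 1)| ≤ ε * N ^ 6)
    (h2 : ∀ ε : ℝ, 0 < ε → ∃ N₀ : ℕ, ∀ N : ℕ, N₀ ≤ N →
      |G2 a8 N 0 ![W 0 N, W 1 N, W 2 N, W 3 N, 1, 1, 1, 1] - P * G2 a8 N 0 (fun _ _ => 1)| ≤ ε * N ^ 6) :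
    ∀ ε : ℝ, 0 < ε → ∃ N₀ : ℕ, ∀ N : ℕ, N₀ ≤ N →
      ({n : ℕ | ε * N ^ 2 < |rp (fun i => W i N) N n - P * rp (fun _ _ => 1) N n|}.ncard : ℝ) ≤ ε * N ^ 2 := by
  intro ε hε
  obtain ⟨ε', hε'⟩ : ∃ ε' : ℝ, ε' = ε ^ 3 / (1 + 2 * |P|) := ⟨_, rfl⟩
  have hp0 : 0 < 1 + 2 * |P| := by positivity
  have hε0 : 0 < ε' := by rw [hε']; positivity
  obtain ⟨N₁, g1⟩ := h1 ε' hε0
  obtain ⟨N₂, g2⟩ := h2 ε' hε0
  refine ⟨max 1 (max N₁ N₂), fun N hN => ?_⟩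
  have hN1 : N₁ ≤ N := (le_max_left _ _).trans ((le_max_right _ _).trans hN)
  have hN2 : N₂ ≤ N := (le_max_right _ _).trans ((le_max_right _ _).trans hN)
  have hN0 : (0 : ℝ) < N := by exact_mod_cast (by have := (le_max_left _ _).trans hN; omega : 0 < N)
  have key := hBIQ N (fun i => W i N) P (ε' * N ^ 6) (g1 N hN1) (g2 N hN2)
  have e3 : (1 + 2 * |P|) * (ε' * N ^ 6) = ε ^ 3 * N ^ 6 := by
    rw [hε']
    field_simp
  rw [e3] at key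
  obtain ⟨T, hT⟩ : ∃ T : Set ℕ, T = {n : ℕ | ε * N ^ 2 <
    |rp (fun i => W i N) N n - P * rp (fun _ _ => 1) N n|} := ⟨_, rfl⟩
  rw [← hT]
  -- no representations beyond `4 N ^ 2`
  have hbig : ∀ n, 4 * N ^ 2 < n → ∀ w : Fin 4 → ℕ → ℝ, rp w N n = 0 := by
    intro n hn w
    unfold rp
    refine Finset.sum_eq_zero fun m hm => ?_
    exfalso
    rw [Finset.mem_filter, Fintype.mem_piFinset] at hm
    have h4 : ∀ i, m i ^ 2 ≤ N ^ 2 := by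
      intro i
      have := hm.1 i
      unfold odds at this
      rw [Finset.mem_filter, Finset.mem_Icc] at this
      exact Nat.pow_le_pow_left this.1.2 2
    have h5 := hm.2
    rw [Fin.sum_univ_four] at h5
    have := h4 0
    have := h4 1
    have := h4 2
    have := h4 3
    omega
  have hsub0 : T ⊆ Set.Iio (4 * N ^ 2 + 1) := by
    intro n hn
    rw [hT] at hn
    by_contra h
    rw [Set.mem_Iio, not_lt] at h
    have h6 : ε * N ^ 2 < |rp (fun i => W i N) N n - P * rp (fun _ _ => 1) N n| := hn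
    rw [hbig n (by omega), hbig n (by omega)] at h6
    simp at h6
    have : 0 < ε * (N : ℝ) ^ 2 := by positivity
    linarith
  have hfin : T.Finite := (Set.finite_Iio _).subset hsub0
  rw [Set.ncard_eq_toFinset_card T hfin]
  have hsub : hfin.toFinset ⊆ range (4 * N ^ 2 + 1) := by
    intro n hn
    rw [Set.Finite.mem_toFinset] at hn
    exact Finset.mem_range.2 (hsub0 hn)
  have hle : ∑ n ∈ hfin.toFinset, (ε * N ^ 2) ^ 2 ≤ ε ^ 3 * N ^ 6 := by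
    refine le_trans ?_ ((Finset.sum_le_sum_of_subset_of_nonneg hsub fun _ _ _ => sq_nonneg _).trans key)
    refine Finset.sum_le_sum fun n hn => ?_
    rw [Set.Finite.mem_toFinset, hT] at hn
    have h7 : ε * N ^ 2 < |rp (fun i => W i N) N n - P * rp (fun _ _ => 1) N n| := hn
    rw [← sq_abs (rp _ N n - _)]
    exact pow_le_pow_left₀ (by positivity) h7.le 2
  rw [Finset.sum_const, nsmul_eq_mul] at hle
  have hpos : 0 < (ε * (N : ℝ) ^ 2) ^ 2 := by positivity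
  rw [← mul_le_mul_iff_of_pos_right hpos]
  refine hle.trans (le_of_eq ?_)
  ring

end Pool.Agent.L0h19.QE
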